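/-
Problem MP_0f8bf3_al, Q1 (embedding `ℤ ≀ ℤ^n` into the piecewise linear homeomorphisms of the
`(n-1)`-sphere): yes, for every `n ≥ 4`; more generally `ℤ ≀ ℤ^r` embeds for every rank `r`.

The boundary of the 4-cube is the set of the `(p, q) ∈ ℝ² × ℝ²` with `max (‖p‖, ‖q‖) = 1` (norms
on `ℝ²` are maximum norms).  `ℤ^r` acts by rotations of `p` by rationally independent amounts (arc
length on the boundary of the square), the generator of the base group rotates `q` by
`min (2 ‖q‖) (1 + p.1) / ‖q‖`, which is piecewise linear.  On `ℝ^n`, `n ≥ 4`, the action is the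
identity on the other coordinates.
-/
import Pool.Agent.Lib.MP_0f8bf3_al.General

set_option autoImplicit false

namespace Pool.Agent.Results.MP_0f8bf3_al.AllDimensions

open Set Pool.Agent.Lib.MP_0f8bf3_al Pool.Agent.Lib.MP_0f8bf3_al.General

/-- The boundary of the cube `[-1, 1]^n` (the piecewise linear sphere of dimension `n - 1`). -/
def cubeSphere (n : ℕ) : Set (Fin n → ℝ) := {x | (∀ i, |x i| ≤ 1) ∧ ∃ i, |x i| = 1}

/-- A polytope: the convex hull of a finite set. -/
def IsPolytope {n : ℕ} (P : Set (Fin n → ℝ)) : Prop :=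
  ∃ s : Finset (Fin n → ℝ), P = convexHull ℝ (↑s : Set (Fin n → ℝ))

/-- A piecewise linear homeomorphism of the boundary of the cube: the boundary of the cube is the
union of finitely many polytopes such that the homeomorphism is affine on each of them. -/
def IsPL {n : ℕ} (h : cubeSphere n ≃ₜ cubeSphere n) : Prop :=
  ∃ T : Set (Set (Fin n → ℝ) × ((Fin n → ℝ) →ᵃ[ℝ] (Fin n → ℝ))), T.Finite ∧
    (∀ c ∈ T, IsPolytope c.1) ∧ (⋃ c ∈ T, c.1) = cubeSphere n ∧
    ∀ c ∈ T, ∀ x : cubeSphere n, (x : Fin n → ℝ) ∈ c.1 → (h x : Fin n → ℝ) = c.2 x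

/-! ### Proof -/

theorem mem_cubeSphere {n : ℕ} (x : Fin n → ℝ) : x ∈ cubeSphere n ↔ ‖x‖ = 1 := by
  constructor
  · rintro ⟨h1, i, h2⟩
    apply le_antisymm
    · rw [pi_norm_le_iff_of_nonneg zero_le_one]
      exact h1
    · rw [← h2]
      exact norm_le_pi_norm x i
  · intro h
    have h1 : ∀ i, |x i| ≤ 1 := fun i => by
      rw [← h]
      exact norm_le_pi_norm x i
    refine ⟨h1, ?_⟩
    by_contra hcon
    push Not at hcon
    have h2 : ‖x‖ < 1 := by
      rw [pi_norm_lt_iff one_pos]
      intro i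
      exact lt_of_le_of_ne (h1 i) (hcon i)
    exact absurd h h2.ne

/-- From a piecewise linear map on `ℝ^n` to finitely many polytopes with union the boundary of the
cube. -/
theorem exists_polytopes {n : ℕ} {F : (Fin n → ℝ) → (Fin n → ℝ)} (hF : PL F) :
    ∃ T : Set (Set (Fin n → ℝ) × ((Fin n → ℝ) →ᵃ[ℝ] (Fin n → ℝ))), T.Finite ∧
      (∀ c ∈ T, IsPolytope c.1) ∧ (⋃ c ∈ T, c.1) = cubeSphere n ∧
      ∀ c ∈ T, ∀ x ∈ c.1, F x = c.2 x := by
  obtain ⟨T, hT, h1, h2, h3⟩ := hF
  let pr : Fin n → ((Fin n → ℝ) →ᵃ[ℝ] ℝ) := fun i =>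
    (LinearMap.proj i : (Fin n → ℝ) →ₗ[ℝ] ℝ).toAffineMap
  let on : (Fin n → ℝ) →ᵃ[ℝ] ℝ := AffineMap.const ℝ (Fin n → ℝ) (1 : ℝ)
  have e1 : ∀ i x, (pr i + on) x = x i + 1 := fun i x => rfl
  have e2 : ∀ i x, (-pr i + on) x = -x i + 1 := fun i x => rfl
  have e3 : ∀ i x, (pr i - on) x = x i - 1 := fun i x => rfl
  have e4 : ∀ i x, (-pr i - on) x = -x i - 1 := fun i x => rfl
  have hcube : IsPoly (Metric.closedBall (0 : Fin n → ℝ) 1) := by
    have : Metric.closedBall (0 : Fin n → ℝ) 1 =
        ⋂ i : Fin n, ({x | 0 ≤ (pr i + on) x} ∩ {x | 0 ≤ (-pr i + on) x}) := by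
      ext x
      simp only [mem_closedBall_zero_iff, pi_norm_le_iff_of_nonneg zero_le_one, Real.norm_eq_abs,
        abs_le, mem_iInter, mem_inter_iff, mem_ofPred_eq, e1, e2]
      refine forall_congr' fun i => ?_
      constructor
      · rintro ⟨ha, hb⟩
        exact ⟨by linarith, by linarith⟩
      · rintro ⟨ha, hb⟩
        exact ⟨by linarith, by linarith⟩
    rw [this]
    exact IsPoly.iInter fun i => (IsPoly.half _).inter (IsPoly.half _)
  -- the facets of the cube
  let fac : Fin n × Bool → Set (Fin n → ℝ) := fun j =>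
    {x | 0 ≤ ((if j.2 then pr j.1 - on else -pr j.1 - on) : (Fin n → ℝ) →ᵃ[ℝ] ℝ) x}
  have hfac : ∀ j (x : Fin n → ℝ), x ∈ fac j → 1 ≤ |x j.1| := by
    rintro ⟨i, b⟩ x hx
    cases b with
    | false =>
      have h : 0 ≤ (-pr i - on) x := hx
      rw [e4] at h
      rw [← abs_neg]
      exact le_trans (by linarith) (le_abs_self (-x i))
    | true =>
      have h : 0 ≤ (pr i - on) x := hx
      rw [e3] at h
      exact le_trans (by linarith) (le_abs_self (x i))
  refine ⟨Set.image2 (fun c j => ((c.1 ∩ Metric.closedBall 0 1) ∩ fac j, c.2)) T Set.univ,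
    hT.image2 _ Set.finite_univ, ?_, ?_, ?_⟩
  · rintro _ ⟨c, hc, j, -, rfl⟩
    have hp : IsPoly ((c.1 ∩ Metric.closedBall 0 1) ∩ fac j) :=
      ((h1 c hc).inter hcube).inter (IsPoly.half _)
    exact hp.exists_finset (Metric.isBounded_closedBall.subset
      (inter_subset_left.trans inter_subset_right))
  · ext x
    rw [mem_cubeSphere]
    constructor
    · intro hx
      rw [mem_iUnion₂] at hx
      obtain ⟨_, ⟨c, hc, j, -, rfl⟩, hx⟩ := hx
      apply le_antisymm
      · exact mem_closedBall_zero_iff.1 hx.1.2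
      · exact (hfac j x hx.2).trans (norm_le_pi_norm x j.1)
    · intro hx
      obtain ⟨c, hc, hxc⟩ := h2 x
      obtain ⟨-, i, hi⟩ := (mem_cubeSphere x).2 hx
      rw [mem_iUnion₂]
      have hb : x ∈ Metric.closedBall (0 : Fin n → ℝ) 1 := by
        rw [mem_closedBall_zero_iff]
        exact hx.le
      rcases (abs_eq zero_le_one).1 hi with h | h
      · refine ⟨_, ⟨c, hc, (i, true), mem_univ _, rfl⟩, ⟨hxc, hb⟩, ?_⟩
        show 0 ≤ (pr i - on) x
        rw [e3, h, sub_self]
      · refine ⟨_, ⟨c, hc, (i, false), mem_univ _, rfl⟩, ⟨hxc, hb⟩, ?_⟩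
        show 0 ≤ (-pr i - on) x
        rw [e4, h, neg_neg, sub_self]
  · rintro _ ⟨c, hc, j, -, rfl⟩ x hx
    exact h3 c hc x hx.1.1

section extension

variable {n : ℕ} (hn : 4 ≤ n)

/-- The first four coordinates. -/
def head (x : Fin n → ℝ) : E4 := fun i => x (Fin.castLE hn i)

/-- The extension of a map by the identity. -/
def ext (F : E4 → E4) (x : Fin n → ℝ) : Fin n → ℝ := fun i =>
  if h : (i : ℕ) < 4 then F (head hn x) ⟨i, h⟩ else x i

theorem head_ext (F : E4 → E4) (x : Fin n → ℝ) : head hn (ext hn F x) = F (head hn x) := by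
  funext i
  have h : ((Fin.castLE hn i : Fin n) : ℕ) < 4 := i.2
  show ext hn F x (Fin.castLE hn i) = _
  unfold ext
  rw [dif_pos h]
  rfl

theorem ext_ext (F G : E4 → E4) (x : Fin n → ℝ) :
    ext hn F (ext hn G x) = ext hn (fun y => F (G y)) x := by
  funext i
  by_cases h : (i : ℕ) < 4
  · show (if h : (i : ℕ) < 4 then F (head hn (ext hn G x)) ⟨i, h⟩ else _) = _
    rw [dif_pos h, head_ext]
    unfold ext
    rw [dif_pos h]
  · unfold ext
    rw [dif_neg h, dif_neg h, dif_neg h]

theorem ext_id (x : Fin n → ℝ) : ext hn (fun y => y) x = x := by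
  funext i
  by_cases h : (i : ℕ) < 4
  · unfold ext
    rw [dif_pos h]
    rfl
  · unfold ext
    rw [dif_neg h]

theorem norm_le_iff (F : E4 → E4) (hF : ∀ y, ‖F y‖ = ‖y‖) (x : Fin n → ℝ) {c : ℝ} (hc : 0 ≤ c) :
    ‖ext hn F x‖ ≤ c ↔ ‖x‖ ≤ c := by
  have h1 : ‖F (head hn x)‖ ≤ c ↔ ‖head hn x‖ ≤ c := by rw [hF]
  rw [pi_norm_le_iff_of_nonneg hc, pi_norm_le_iff_of_nonneg hc] at h1 ⊢
  constructor
  · intro h i
    by_cases hi : (i : ℕ) < 4
    · have h2 := h1.1 (fun j => by
        have h3 := h (Fin.castLE hn j)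
        have h4 := congrFun (head_ext hn F x) j
        rw [← h4]
        exact h3) ⟨i, hi⟩
      exact h2
    · have h3 := h i
      unfold ext at h3
      rw [dif_neg hi] at h3
      exact h3
  · intro h i
    by_cases hi : (i : ℕ) < 4
    · have h2 := h1.2 (fun j => h (Fin.castLE hn j)) ⟨i, hi⟩
      unfold ext
      rw [dif_pos hi]
      exact h2
    · have h3 := h i
      unfold ext
      rw [dif_neg hi]
      exact h3

theorem norm_ext (F : E4 → E4) (hF : ∀ y, ‖F y‖ = ‖y‖) (x : Fin n → ℝ) :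
    ‖ext hn F x‖ = ‖x‖ :=
  le_antisymm ((norm_le_iff hn F hF x (norm_nonneg _)).2 le_rfl)
    ((norm_le_iff hn F hF x (norm_nonneg _)).1 le_rfl)

theorem norm_head (x : Fin n → ℝ) : ‖head hn x‖ ≤ ‖x‖ := by
  rw [pi_norm_le_iff_of_nonneg (norm_nonneg _)]
  intro i
  exact norm_le_pi_norm x (Fin.castLE hn i)

theorem continuous_ext {F : E4 → E4} (hF : Continuous F) : Continuous (ext hn F) := by
  apply continuous_pi
  intro i
  by_cases h : (i : ℕ) < 4
  · have e : (fun x : Fin n → ℝ => ext hn F x i) = fun x => F (head hn x) ⟨i, h⟩ := by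
      funext x
      unfold ext
      rw [dif_pos h]
    rw [e]
    have h1 : Continuous (head hn) := continuous_pi fun j => continuous_apply _
    exact (continuous_apply _).comp (hF.comp h1)
  · have e : (fun x : Fin n → ℝ => ext hn F x i) = fun x => x i := by
      funext x
      unfold ext
      rw [dif_neg h]
    rw [e]
    exact continuous_apply i

theorem pl_ext {F : E4 → E4} (hF : PL F) : PL (ext hn F) := by
  apply PL.pi
  intro i
  by_cases h : (i : ℕ) < 4
  · have e : (fun x : Fin n → ℝ => ext hn F x i) = fun x => F (head hn x) ⟨i, h⟩ := by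
      funext x
      unfold ext
      rw [dif_pos h]
    rw [e]
    have h1 : PL (head hn) :=
      PL.affine (LinearMap.funLeft ℝ ℝ (Fin.castLE hn)).toAffineMap
    have h2 : PL (fun x : Fin n → ℝ => F (head hn x)) := hF.comp h1
    exact (PL.coord (⟨i, h⟩ : Fin 4)).comp h2
  · have e : (fun x : Fin n → ℝ => ext hn F x i) = fun x => x i := by
      funext x
      unfold ext
      rw [dif_neg h]
    rw [e]
    exact PL.coord i

variable {r : ℕ} (α : Fin r → ℝ)

/-- The homeomorphism of the boundary of the cube given by an element of the wreath product. -/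
noncomputable def homeo (g : ZW r) : cubeSphere n ≃ₜ cubeSphere n where
  toFun x := ⟨ext hn (act α g⁻¹) x, by
    rw [mem_cubeSphere, norm_ext hn _ (norm_act α _)]
    exact (mem_cubeSphere _).1 x.2⟩
  invFun x := ⟨ext hn (act α g) x, by
    rw [mem_cubeSphere, norm_ext hn _ (norm_act α _)]
    exact (mem_cubeSphere _).1 x.2⟩
  left_inv := by
    intro x
    apply Subtype.ext
    simp only
    rw [ext_ext]
    have e : (fun y => act α g (act α g⁻¹ y)) = fun y => y := by
      funext y
      rw [General.act_act, inv_mul_cancel, act_one]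
    rw [e, ext_id]
  right_inv := by
    intro x
    apply Subtype.ext
    simp only
    rw [ext_ext]
    have e : (fun y => act α g⁻¹ (act α g y)) = fun y => y := by
      funext y
      rw [General.act_act, mul_inv_cancel, act_one]
    rw [e, ext_id]
  continuous_toFun := by
    obtain ⟨F, hF, -, hF'⟩ := (good_act (α := α) g⁻¹).ex
    rw [continuous_induced_rng]
    refine ((continuous_ext hn hF).comp continuous_subtype_val).congr fun x => ?_
    show ext hn F x = ext hn (act α g⁻¹) x
    have hx : ‖head hn (x : Fin n → ℝ)‖ ≤ 1 :=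
      (norm_head hn _).trans ((mem_cubeSphere _).1 x.2).le
    unfold ext
    rw [hF' _ hx]
  continuous_invFun := by
    obtain ⟨F, hF, -, hF'⟩ := (good_act (α := α) g).ex
    rw [continuous_induced_rng]
    refine ((continuous_ext hn hF).comp continuous_subtype_val).congr fun x => ?_
    show ext hn F x = ext hn (act α g) x
    have hx : ‖head hn (x : Fin n → ℝ)‖ ≤ 1 :=
      (norm_head hn _).trans ((mem_cubeSphere _).1 x.2).le
    unfold ext
    rw [hF' _ hx]

theorem homeo_apply (g : ZW r) (x : cubeSphere n) :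
    (homeo hn α g x : Fin n → ℝ) = ext hn (act α g⁻¹) x := rfl

/-- The homomorphism to the group of homeomorphisms of the boundary of the cube. -/
noncomputable def psi : ZW r →* (cubeSphere n ≃ₜ cubeSphere n) where
  toFun := homeo hn α
  map_one' := by
    ext x : 2
    rw [homeo_apply, inv_one]
    have e : act α (1 : ZW r) = fun y => y := funext fun y => act_one α y
    rw [e, ext_id]
    rfl
  map_mul' g h := by
    ext x : 2
    show ext hn (act α (g * h)⁻¹) x = ext hn (act α g⁻¹) (ext hn (act α h⁻¹) x)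
    rw [ext_ext, mul_inv_rev]
    congr 1
    funext y
    rw [General.act_act]

theorem isPL_psi (g : ZW r) : IsPL (psi hn α g) := by
  obtain ⟨F, -, hF, hF'⟩ := (good_act (α := α) g⁻¹).ex
  obtain ⟨T, h1, h2, h3, h4⟩ := exists_polytopes (pl_ext hn hF)
  refine ⟨T, h1, h2, h3, fun c hc x hx => ?_⟩
  rw [← h4 c hc x hx]
  show ext hn (act α g⁻¹) x = ext hn F x
  have hx : ‖head hn (x : Fin n → ℝ)‖ ≤ 1 :=
    (norm_head hn _).trans ((mem_cubeSphere _).1 x.2).le
  unfold ext
  rw [hF' _ hx]

end extension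

/-- For all `n ≥ 4` and all `r` the restricted wreath product `ℤ ≀ ℤ^r` embeds in the group of the
piecewise linear homeomorphisms of the boundary of the `n`-dimensional cube. -/
theorem result (n : ℕ) (hn : 4 ≤ n) (r : ℕ) :
    ∃ ψ : ZW r →* (cubeSphere n ≃ₜ cubeSphere n), Function.Injective ψ ∧ ∀ g, IsPL (ψ g) := by
  obtain ⟨α, hα⟩ := exists_params r
  refine ⟨psi hn α, ?_, isPL_psi hn α⟩
  rw [injective_iff_map_eq_one]
  intro g hg
  rw [← inv_eq_one]
  apply eq_one_of_act hα
  intro y hy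
  -- the point of the boundary of the cube with first coordinates `y`, all others `0`
  let x : Fin n → ℝ := fun i => if h : (i : ℕ) < 4 then y ⟨i, h⟩ else 0
  have hxy : head hn x = y := by
    funext i
    have h : ((Fin.castLE hn i : Fin n) : ℕ) < 4 := i.2
    show (if h : ((Fin.castLE hn i : Fin n) : ℕ) < 4 then y ⟨_, h⟩ else 0) = y i
    rw [dif_pos h]
    rfl
  have hx : x ∈ cubeSphere n := by
    rw [mem_cubeSphere]
    apply le_antisymm
    · rw [pi_norm_le_iff_of_nonneg zero_le_one]
      intro i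
      by_cases h : (i : ℕ) < 4
      · have : x i = y ⟨i, h⟩ := dif_pos h
        rw [this, ← hy]
        exact norm_le_pi_norm y _
      · have : x i = 0 := dif_neg h
        rw [this, norm_zero]
        exact zero_le_one
    · rw [← hy, ← hxy]
      exact norm_head hn x
  have h1 : (psi hn α g ⟨x, hx⟩ : Fin n → ℝ) = x := by
    rw [hg]
    rfl
  have h2 : ext hn (act α g⁻¹) x = x := h1
  have h3 := congrArg (head hn) h2
  rw [head_ext, hxy] at h3
  exact h3

end Pool.Agent.Results.MP_0f8bf3_al.AllDimensions
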